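import Pool.Agent.Helper75.PZ.GoalsB

/-!
# Project PZ: change of the ratio in the Dini sum (`P_SEQ`)
-/

set_option autoImplicit false

namespace Pool.Agent.Helper96.PZ

open Pool.Agent.Helper75.PZ Finset

theorem sum_div_six (g : ℕ → ℝ) (M : ℕ) :
    ∑ n ∈ range (6 * M), g (n / 6) = 6 * ∑ j ∈ range M, g j := by
  induction M with
  | zero => simp
  | succ M ih =>
    rw [show 6 * (M + 1) = 6 * M + 1 + 1 + 1 + 1 + 1 + 1 by ring]
    rw [sum_range_succ, sum_range_succ, sum_range_succ, sum_range_succ, sum_range_succ,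
      sum_range_succ, ih, sum_range_succ]
    have h0 : 6 * M / 6 = M := by omega
    have h1 : (6 * M + 1) / 6 = M := by omega
    have h2 : (6 * M + 1 + 1) / 6 = M := by omega
    have h3 : (6 * M + 1 + 1 + 1) / 6 = M := by omega
    have h4 : (6 * M + 1 + 1 + 1 + 1) / 6 = M := by omega
    have h5 : (6 * M + 1 + 1 + 1 + 1 + 1) / 6 = M := by omega
    rw [h0, h1, h2, h3, h4, h5]
    ring

theorem summable_div_six {g : ℕ → ℝ} (h0 : ∀ n, 0 ≤ g n) (hg : Summable g) :
    Summable (fun n : ℕ => g (n / 6)) := by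
  refine summable_of_sum_range_le (c := 6 * ∑' n, g n) (fun n => h0 _) fun N => ?_
  calc ∑ n ∈ range N, g (n / 6) ≤ ∑ n ∈ range (6 * N), g (n / 6) :=
        sum_le_sum_of_subset_of_nonneg (range_subset_range.2 (by omega)) fun _ _ _ => h0 _
    _ = 6 * ∑ j ∈ range N, g j := sum_div_six g N
    _ ≤ 6 * ∑' n, g n :=
        mul_le_mul_of_nonneg_left (hg.sum_le_tsum _ fun _ _ => h0 _) (by norm_num)

theorem seq : P_SEQ := by
  intro w hw h0 hs D hD
  obtain ⟨k, hk⟩ := pow_unbounded_of_one_lt D (one_lt_two)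
  rw [← summable_nat_add_iff (6 * k)]
  refine Summable.of_nonneg_of_le (fun n => h0 _) (fun n => ?_)
    (summable_div_six (g := fun n : ℕ => w ((1 / 2) ^ n)) (fun n => h0 _) hs)
  apply hw
  have h1 : ((7 : ℝ) / 8) ^ (n + 6 * k) ≤ (1 / 2) ^ (n / 6 + k) := by
    calc ((7 : ℝ) / 8) ^ (n + 6 * k) ≤ (7 / 8) ^ (6 * (n / 6 + k)) :=
          pow_le_pow_of_le_one (by norm_num) (by norm_num) (by omega)
      _ = ((7 / 8) ^ 6) ^ (n / 6 + k) := pow_mul _ _ _
      _ ≤ (1 / 2) ^ (n / 6 + k) := pow_le_pow_left₀ (by norm_num) (by norm_num) _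
  calc ((7 : ℝ) / 8) ^ (n + 6 * k) * D ≤ (1 / 2) ^ (n / 6 + k) * 2 ^ k :=
        mul_le_mul h1 hk.le hD (by positivity)
    _ = (1 / 2) ^ (n / 6) := by
        rw [pow_add, mul_assoc, ← mul_pow]
        norm_num

end Pool.Agent.Helper96.PZ
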