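import Pool.Agent.Helper75.PZ.GoalsC

/-!
# Project PZ: a curve from uniformly refining chains (`P_UNI`)

The points `gr n k` are the points of the chain number `n`; `gr (n + 1) (4 k) = gr n k`. The curve is
the limit of the step functions `u ↦ gr n ⌊4 ^ n u⌋`.
-/

set_option autoImplicit false

namespace Pool.Agent.Helper96.PZ

open Pool.Agent.Helper75.PZ Finset Filter Topology

section

variable {M : Type} (x y : M) (p1 p2 p3 : ℕ → M → M → M)

/-- The chains. -/
def gr : ℕ → ℕ → M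
  | 0, k => if k = 0 then x else y
  | n + 1, k =>
    if k % 4 = 0 then gr n (k / 4)
    else if k % 4 = 1 then p1 n (gr n (k / 4)) (gr n (k / 4 + 1))
    else if k % 4 = 2 then p2 n (gr n (k / 4)) (gr n (k / 4 + 1))
    else p3 n (gr n (k / 4)) (gr n (k / 4 + 1))

theorem gr_zero (k : ℕ) : gr x y p1 p2 p3 0 k = if k = 0 then x else y := by
  rw [gr]

theorem gr_0 (n q : ℕ) : gr x y p1 p2 p3 (n + 1) (4 * q) = gr x y p1 p2 p3 n q := by
  rw [gr, if_pos (by omega)]
  congr 1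
  omega

theorem gr_1 (n q : ℕ) : gr x y p1 p2 p3 (n + 1) (4 * q + 1) =
    p1 n (gr x y p1 p2 p3 n q) (gr x y p1 p2 p3 n (q + 1)) := by
  have h : (4 * q + 1) / 4 = q := by omega
  rw [gr, if_neg (by omega), if_pos (by omega), h]

theorem gr_2 (n q : ℕ) : gr x y p1 p2 p3 (n + 1) (4 * q + 2) =
    p2 n (gr x y p1 p2 p3 n q) (gr x y p1 p2 p3 n (q + 1)) := by
  have h : (4 * q + 2) / 4 = q := by omega
  rw [gr, if_neg (by omega), if_neg (by omega), if_pos (by omega), h]

theorem gr_3 (n q : ℕ) : gr x y p1 p2 p3 (n + 1) (4 * q + 3) =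
    p3 n (gr x y p1 p2 p3 n q) (gr x y p1 p2 p3 n (q + 1)) := by
  have h : (4 * q + 3) / 4 = q := by omega
  rw [gr, if_neg (by omega), if_neg (by omega), if_neg (by omega), h]

theorem gr_left (n : ℕ) : gr x y p1 p2 p3 n 0 = x := by
  induction n with
  | zero => rw [gr_zero, if_pos rfl]
  | succ n ih =>
    have h := gr_0 x y p1 p2 p3 n 0
    rw [mul_zero] at h
    rw [h, ih]

theorem gr_right (n : ℕ) : gr x y p1 p2 p3 n (4 ^ n) = y := by
  induction n with
  | zero => rw [gr_zero, if_neg (by norm_num)]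
  | succ n ih => rw [pow_succ', gr_0, ih]

end

section

variable {M : Type} [MetricSpace M] {x y : M} {p1 p2 p3 : ℕ → M → M → M} {r : ℕ → ℝ}

theorem gr_step (h0 : dist x y ≤ r 0) (hr : 0 ≤ r 0)
    (hp : ∀ (n : ℕ) (x y : M), dist x y ≤ r n → dist x (p1 n x y) ≤ r (n + 1) ∧
      dist (p1 n x y) (p2 n x y) ≤ r (n + 1) ∧ dist (p2 n x y) (p3 n x y) ≤ r (n + 1) ∧
      dist (p3 n x y) y ≤ r (n + 1)) (n : ℕ) :
    ∀ k, dist (gr x y p1 p2 p3 n k) (gr x y p1 p2 p3 n (k + 1)) ≤ r n := by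
  induction n with
  | zero =>
    intro k
    rw [gr_zero, gr_zero]
    rcases Nat.eq_zero_or_pos k with h | h
    · rw [if_pos h, if_neg (by omega)]
      exact h0
    · rw [if_neg (by omega), if_neg (by omega), dist_self]
      exact hr
  | succ n ih =>
    intro k
    obtain ⟨a1, a2, a3, a4⟩ := hp n _ _ (ih (k / 4))
    have hk : k = 4 * (k / 4) + k % 4 := by omega
    have h4 : k % 4 < 4 := Nat.mod_lt _ (by norm_num)
    generalize k % 4 = i at hk h4
    generalize k / 4 = q at *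
    subst hk
    interval_cases i
    · rw [add_zero, gr_0, gr_1]
      exact a1
    · rw [show 4 * q + 1 + 1 = 4 * q + 2 by ring, gr_1, gr_2]
      exact a2
    · rw [show 4 * q + 2 + 1 = 4 * q + 3 by ring, gr_2, gr_3]
      exact a3
    · rw [show 4 * q + 3 + 1 = 4 * (q + 1) by ring, gr_3, gr_0]
      exact a4

/-- The step functions. -/
theorem gr_near (hr : ∀ n, 0 ≤ r n)
    (hs : ∀ n k, dist (gr x y p1 p2 p3 n k) (gr x y p1 p2 p3 n (k + 1)) ≤ r n) (n k : ℕ) :
    dist (gr x y p1 p2 p3 n (k / 4)) (gr x y p1 p2 p3 (n + 1) k) ≤ 3 * r (n + 1) := by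
  have hk : k = 4 * (k / 4) + k % 4 := by omega
  have h4 : k % 4 < 4 := Nat.mod_lt _ (by norm_num)
  have h0 := hr (n + 1)
  generalize k % 4 = i at hk h4
  generalize k / 4 = q at *
  subst hk
  have b1 := hs (n + 1) (4 * q)
  have b2 := hs (n + 1) (4 * q + 1)
  have b3 := hs (n + 1) (4 * q + 2)
  rw [show 4 * q + 1 + 1 = 4 * q + 2 by ring] at b2
  rw [show 4 * q + 2 + 1 = 4 * q + 3 by ring] at b3
  rw [← gr_0 x y p1 p2 p3 n q]
  interval_cases i
  · rw [add_zero, dist_self]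
    positivity
  · linarith
  · have := dist_triangle (gr x y p1 p2 p3 (n + 1) (4 * q)) (gr x y p1 p2 p3 (n + 1) (4 * q + 1))
      (gr x y p1 p2 p3 (n + 1) (4 * q + 2))
    linarith
  · have := dist_triangle4 (gr x y p1 p2 p3 (n + 1) (4 * q))
      (gr x y p1 p2 p3 (n + 1) (4 * q + 1)) (gr x y p1 p2 p3 (n + 1) (4 * q + 2))
      (gr x y p1 p2 p3 (n + 1) (4 * q + 3))
    linarith

end

theorem floor_near {a b : ℝ} (h : a ≤ b) (h' : b ≤ a + 1) : ⌊b⌋₊ = ⌊a⌋₊ ∨ ⌊b⌋₊ = ⌊a⌋₊ + 1 := by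
  have h1 : ⌊a⌋₊ ≤ ⌊b⌋₊ := Nat.floor_mono h
  have h2 : ⌊b⌋₊ ≤ ⌊a⌋₊ + 1 := by
    rcases le_or_gt 0 a with ha | ha
    · rw [← Nat.floor_add_one ha]
      exact Nat.floor_mono h'
    · have : ⌊b⌋₊ = 0 := Nat.floor_eq_zero.2 (by linarith)
      omega
  omega

theorem floor_four (n : ℕ) (u : ℝ) : ⌊(4 : ℝ) ^ n * u⌋₊ = ⌊(4 : ℝ) ^ (n + 1) * u⌋₊ / 4 := by
  have h := Nat.floor_div_natCast ((4 : ℝ) ^ (n + 1) * u) 4
  rw [← h]
  congr 1
  push_cast
  rw [pow_succ]
  ring

theorem uni : P_UNI := by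
  intro M _ _ r hanti hsum hch x y hxy
  have hr : ∀ n, 0 ≤ r n := fun n =>
    (antitone_nat_of_succ_le hanti).le_of_tendsto hsum.tendsto_atTop_zero n
  have : Nonempty M := ⟨x⟩
  choose! p1 p2 p3 hp using hch
  have hs := gr_step hxy (hr 0) hp
  -- the step functions
  set f : ℕ → ℝ → M := fun n u => gr x y p1 p2 p3 n ⌊(4 : ℝ) ^ n * u⌋₊ with hf
  have hf1 : ∀ u n, dist (f n u) (f (n + 1) u) ≤ 3 * r (n + 1) := by
    intro u n
    rw [hf]
    simp only
    rw [floor_four n u]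
    exact gr_near hr hs n _
  have hsum' : Summable (fun n => 3 * r (n + 1)) :=
    ((summable_nat_add_iff 1).2 hsum).mul_left 3
  have hc : ∀ u, CauchySeq (fun n => f n u) := fun u =>
    cauchySeq_of_dist_le_of_summable _ (hf1 u) hsum'
  choose L hL using fun u => cauchySeq_tendsto_of_complete (hc u)
  have hd : ∀ u n, dist (f n u) (L u) ≤ ∑' m, 3 * r (n + m + 1) := fun u n =>
    dist_le_tsum_of_dist_le_of_tendsto _ (hf1 u) hsum' (hL u) n
  have hρ : Tendsto (fun n => ∑' m, 3 * r (n + m + 1)) atTop (𝓝 0) := by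
    have := tendsto_sum_nat_add (fun n => 3 * r (n + 1))
    refine this.congr fun n => tsum_congr fun m => ?_
    rw [add_comm m n]
  have hfn : ∀ n u v, u ≤ v → v ≤ u + ((4 : ℝ) ^ n)⁻¹ → dist (f n u) (f n v) ≤ r n := by
    intro n u v h1 h2
    have h4 : (0 : ℝ) < 4 ^ n := by positivity
    have h3 : (4 : ℝ) ^ n * v ≤ 4 ^ n * u + 1 := by
      calc (4 : ℝ) ^ n * v ≤ 4 ^ n * (u + ((4 : ℝ) ^ n)⁻¹) := mul_le_mul_of_nonneg_left h2 h4.le
        _ = 4 ^ n * u + 1 := by rw [mul_add, mul_inv_cancel₀ h4.ne']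
    rw [hf]
    simp only
    rcases floor_near (mul_le_mul_of_nonneg_left h1 h4.le) h3 with h | h
    · rw [h, dist_self]
      exact hr n
    · rw [h]
      exact hs n _
  refine ⟨L, ?_, ?_, ?_⟩
  · rw [Metric.continuous_iff]
    intro u ε hε
    have h1 : ∀ᶠ n in atTop, ∑' m, 3 * r (n + m + 1) < ε / 3 :=
      hρ.eventually_lt_const (by positivity)
    have h2 : ∀ᶠ n in atTop, r n < ε / 3 :=
      hsum.tendsto_atTop_zero.eventually_lt_const (by positivity)
    obtain ⟨n, h3, h4⟩ := (h1.and h2).exists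
    have key : ∀ u v, u ≤ v → v ≤ u + ((4 : ℝ) ^ n)⁻¹ → dist (L u) (L v) < ε := by
      intro u v h5 h6
      have h7 := hd u n
      have h8 := hd v n
      have h9 := hfn n u v h5 h6
      have h10 := dist_triangle4 (L u) (f n u) (f n v) (L v)
      rw [dist_comm (L u) (f n u)] at h10
      linarith
    refine ⟨((4 : ℝ) ^ n)⁻¹, by positivity, fun v hv => ?_⟩
    rw [Real.dist_eq, abs_lt] at hv
    rcases le_total u v with h | h
    · rw [dist_comm]
      exact key u v h (by linarith)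
    · exact key v u h (by linarith)
  · refine tendsto_nhds_unique (hL 0) ?_
    have : ∀ n, f n 0 = x := by
      intro n
      rw [hf]
      simp only
      rw [mul_zero, Nat.floor_zero]
      exact gr_left x y p1 p2 p3 n
    simp only [this]
    exact tendsto_const_nhds
  · refine tendsto_nhds_unique (hL 1) ?_
    have : ∀ n, f n 1 = y := by
      intro n
      rw [hf]
      simp only
      have h4 : ⌊(4 : ℝ) ^ n * 1⌋₊ = 4 ^ n := by
        rw [mul_one]
        have := Nat.floor_natCast (R := ℝ) (4 ^ n)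
        push_cast at this
        exact this
      rw [h4]
      exact gr_right x y p1 p2 p3 n
    simp only [this]
    exact tendsto_const_nhds

end Pool.Agent.Helper96.PZ
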